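import Pool.Agent.helper60.DA.SpecW

/-!
# Row dw:E8
-/

set_option autoImplicit false

namespace Pool.Agent.helper60.DA

open Polynomial Finset Pool.Agent.helper60.DK

theorem E8 (hSW : SW_stmt) (hE2 : E2_stmt) (hPHV : PHV_stmt) : E8_stmt := by
  intro p hp h7 h3 V V2 hV hV2
  have h5 : 5 ≤ p := by omega
  have h := congrArg (eval (2 : ZMod p)) (hSW p h7 h3 V V2 hV hV2)
  have e2 := hE2 p h7 h3 V hV
  obtain ⟨_, _, _, _, _, _, _, _, v18, v21, _⟩ := hPHV p h5
  have p1 : (ph p (1 : (ZMod p)[X]) (4 * X)).eval 2 = ph p 1 8 := by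
    have := map_ph (p := p) (evalRingHom (2 : ZMod p)) (1 : (ZMod p)[X]) (4 * X)
    rw [coe_evalRingHom] at this
    rw [this]
    simp only [eval_one, eval_mul, eval_ofNat, eval_X]
    norm_num
  have p2 : (ph p (X : (ZMod p)[X]) 1).eval 2 = ph p 2 1 := by
    have := map_ph (p := p) (evalRingHom (2 : ZMod p)) (X : (ZMod p)[X]) 1
    rw [coe_evalRingHom] at this
    rw [this]
    simp only [eval_one, eval_X]
  have q1 : (2 : ZMod p) ^ p = 2 := ZMod.pow_card 2
  have q2 : (2 : ZMod p) ^ (2 * p) = 4 := by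
    rw [mul_comm, pow_mul, q1]; norm_num
  have q3 : (9 : ZMod p) ^ hh p = 1 := by
    have e : (9 : ZMod p) = 3 ^ 2 := by norm_num
    rw [e, ← pow_mul]
    have e' : 2 * hh p = p - 1 := by have := two_hh (p := p) h5; omega
    rw [e']
    exact ZMod.pow_card_sub_one_eq_one (three_ne h5)
  unfold Fw Pp at h
  simp only [eval_add, eval_mul, eval_pow, eval_X, eval_one, eval_ofNat, eval_C, p1, p2, q1, q2] at h
  have q4 : (1 + 4 * 2 : ZMod p) ^ hh p = 1 := by
    have e : (1 + 4 * 2 : ZMod p) = 9 := by norm_num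
    rw [e, q3]
  rw [q4, e2, v18, v21] at h
  have h2 := two_ne (p := p) h5
  have h18 : (18 : ZMod p) ≠ 0 := by
    have e : (18 : ZMod p) = 2 * 3 * 3 := by norm_num
    rw [e]
    exact mul_ne_zero (mul_ne_zero h2 (three_ne h5)) (three_ne h5)
  have key : 18 * (2 * (red p V2).eval 2) =
      18 * ((Wp p).eval 2 * (9 * Q2 p - Q3 p)) := by
    field_simp at h
    linear_combination h
  have key2 := mul_left_cancel₀ h18 key
  field_simp
  linear_combination key2

end Pool.Agent.helper60.DA
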