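import Pool.Agent.helper60.DA.SpecW

/-!
# Row dw:FW1
-/

set_option autoImplicit false

namespace Pool.Agent.helper60.DA

open Polynomial Finset Pool.Agent.helper60.DK

theorem FW1_aux {R : Type*} [CommRing R] (v P c : R[X]) (hc : 2 * c = 3)
    (hc' : derivative c = 0) (h1 : Jc P = 0)
    (h2 : 4 * (1 + X) ^ 2 * (1 + 4 * X) ^ 2 * (2 * (P * Dx (Dx v)) + 2 * (v * Dx (Dx P))
      - 2 * (Dx P * Dx v))
    + 8 * X * (1 + X) * (1 + 4 * X) * (5 + 8 * X) * (P * Dx v + v * Dx P)
    + 2 * (28 * X + 195 * X ^ 2 + 432 * X ^ 3 + 256 * X ^ 4) * (P * v)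
    - 12 * (1 + X) * (1 + 4 * X) * (1 + 2 * X)
      * ((1 + 2 * X) * (P * Dx P) + 4 * X * P ^ 2) = 0) :
    8 * X * (1 + X) * (1 + 4 * X) *
      (derivative (X * (1 + X) * (1 + 4 * X) * (derivative v * P - v * derivative P)
        - c * (1 + 2 * X) ^ 2 * P ^ 2) * P
      - (X * (1 + X) * (1 + 4 * X) * (derivative v * P - v * derivative P)
        - c * (1 + 2 * X) ^ 2 * P ^ 2) * derivative P) = 0 := by
  have d4 : derivative (4 : R[X]) = 0 := derivative_ofNat 4
  have d2 : derivative (2 : R[X]) = 0 := derivative_ofNat 2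
  have e1 : derivative (X * (1 + X) * (1 + 4 * X) * (derivative v * P - v * derivative P)
        - c * (1 + 2 * X) ^ 2 * P ^ 2) =
      ((1 + X) * (1 + 4 * X) + X * (1 + 4 * X) + 4 * X * (1 + X)) *
        (derivative v * P - v * derivative P)
      + X * (1 + X) * (1 + 4 * X) *
        (derivative (derivative v) * P - v * derivative (derivative P))
      - c * (4 * (1 + 2 * X) * P ^ 2 + (1 + 2 * X) ^ 2 * (2 * P * derivative P)) := by
    simp only [derivative_sub, derivative_mul, derivative_add, derivative_one, derivative_X,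
      derivative_pow, d4, d2, hc', map_ofNat, Nat.cast_ofNat]
    ring
  rw [e1]
  unfold Jc at h1
  unfold Dx at h1 h2
  simp only [derivative_mul, derivative_X] at h1 h2
  linear_combination P * h2 - 2 * v * h1 -
    4 * X * (1 + X) * (1 + 4 * X) * (1 + 2 * X) * P ^ 2 * (4 * P + (1 + 2 * X) * derivative P) * hc

theorem FW1 (hR : R2W_stmt) : FW1_stmt := by
  intro p hp h7 V2 hV2
  have h5 : 5 ≤ p := by omega
  obtain ⟨h1, h2⟩ := hR p h7 V2 hV2
  have hne2 := two_ne (p := p) h5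
  have hc : (2 : (ZMod p)[X]) * C (3 / 2) = 3 := by
    have e : (2 : (ZMod p)[X]) = C 2 := rfl
    have e3 : (3 : (ZMod p)[X]) = C 3 := rfl
    rw [e, e3, ← C_mul, mul_div_cancel₀ _ hne2]
  have key := FW1_aux (red p V2) (Pp p) (C (3 / 2)) hc derivative_C h1 h2
  have n8 : (8 : (ZMod p)[X]) ≠ 0 := by
    have e : (8 : (ZMod p)[X]) = C (2 * 2 * 2) := by
      rw [C_mul, C_mul]
      have e : (C 2 : (ZMod p)[X]) = 2 := rfl
      rw [e]; norm_num
    rw [e]
    exact C_ne_zero.2 (mul_ne_zero (mul_ne_zero hne2 hne2) hne2)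
  have nX : (X : (ZMod p)[X]) ≠ 0 := X_ne_zero
  have n1 : (1 + X : (ZMod p)[X]) ≠ 0 := by
    intro h
    have := congrArg (eval (0 : ZMod p)) h
    simp at this
  have n4 : (1 + 4 * X : (ZMod p)[X]) ≠ 0 := by
    intro h
    have := congrArg (eval (0 : ZMod p)) h
    simp at this
  have := (mul_eq_zero.1 key).resolve_left
    (mul_ne_zero (mul_ne_zero (mul_ne_zero n8 nX) n1) n4)
  unfold Tw
  exact sub_eq_zero.1 this

end Pool.Agent.helper60.DA
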