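import Pool.Agent.helper60.DA.SpecV
import Pool.Agent.helper60.DK.WF
import Pool.Agent.helper60.DK.HALF

/-!
# Row dv:WL
-/

set_option autoImplicit false

namespace Pool.Agent.helper60.DA

open Polynomial Finset Pool.Agent.helper60.DK

theorem WL : WL_stmt := by
  intro p hp h5
  have h1 := nn_lt_hh (p := p) h5
  refine ⟨?_, ?_⟩
  · unfold Wp
    rw [finsetSum_coeff, Finset.sum_eq_single 0]
    · have e : ff p 0 = (1 + X) ^ (3 * hh p) := by simp [ff]
      rw [e, bb_zero, C_1, one_mul, add_comm (1 : (ZMod p)[X]) X]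
      have := coeff_X_add_one_pow (ZMod p) (3 * hh p) (3 * hh p)
      rw [this]
      simp
    · intro k hk hk0
      have hk' := mem_range.mp hk
      rw [coeff_C_mul]
      have hd : (ff p k).natDegree < 3 * hh p := by
        unfold ff
        have a1 : ((X : (ZMod p)[X]) ^ (2 * k) * (1 + X) ^ (3 * (hh p - k))).natDegree ≤
            2 * k + 3 * (hh p - k) := by
          refine natDegree_mul_le_of_le (natDegree_X_pow_le _) ?_
          have a2 : (1 + X : (ZMod p)[X]).natDegree ≤ 1 := by
            rw [add_comm]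
            exact (natDegree_X_add_C (1 : ZMod p)).le
          calc ((1 + X : (ZMod p)[X]) ^ (3 * (hh p - k))).natDegree
              ≤ (3 * (hh p - k)) * (1 + X : (ZMod p)[X]).natDegree := natDegree_pow_le
            _ ≤ (3 * (hh p - k)) * 1 := Nat.mul_le_mul_left _ a2
            _ = 3 * (hh p - k) := mul_one _
        omega
      rw [coeff_eq_zero_of_natDegree_lt hd, mul_zero]
    · intro h
      exact absurd (mem_range.mpr (Nat.succ_pos _)) h
  · intro h3
    have h4 := four_ne (p := p) h5
    have h2 := two_ne (p := p) h5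
    have e1 : aeval (-1 / 4 : ZMod p) (Sz p) = (Wp p).eval (-1 / 4) := by
      rw [← S_eq_W h5]
      unfold red
      rw [eval_map, aeval_def]
      rfl
    have hpo := p_odd (p := p) h5
    have hx : (1 : ZMod p) + -1 / 4 ≠ 0 := by
      have e : (1 : ZMod p) + -1 / 4 = 3 / 4 := by field_simp; norm_num
      rw [e]
      exact div_ne_zero (three_ne h5) h4
    have key := WF p (ZMod p) h5 (-1 / 4) (-1 / 2) hx (by
      have e4 : (-1 / 4 : ZMod p) = -1 / (2 * 2) := by norm_num
      rw [e4]
      field_simp
      norm_num)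
    rw [← e1, key]
    refine mul_ne_zero (pow_ne_zero _ hx) (pow_ne_zero _ ?_)
    obtain ⟨m, hm⟩ : ∃ m, nn p = 2 * m := ⟨nn p / 2, by unfold nn; omega⟩
    have hlt : 2 * m + 1 < p := by
      rw [← hm]; unfold nn; omega
    rw [hm]
    exact (half_data (p := p) (F := ZMod p) h5 m hlt).1

end Pool.Agent.helper60.DA
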